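import Mathlib

/-!
# The series `T_o(q)`
-/

set_option autoImplicit false

namespace Run7.h185.To

open Finset PowerSeries

/-- The `m`-th term `q^{2m} (-q;q)_{2m} / (q;q^2)_{m+1}` of `T_o(q)`. -/
noncomputable def toTerm (m : ℕ) : PowerSeries ℤ :=
  X ^ (2 * m) * (∏ i ∈ range (2 * m), (1 + X ^ (i + 1))) *
    PowerSeries.invOfUnit (∏ i ∈ range (m + 1), (1 - X ^ (2 * i + 1))) 1

/-- `T_o(q)`: the coefficient of `q^n` is the coefficient of `q^n` in the sum of the terms `m ≤ n`. -/
noncomputable def Tser : PowerSeries ℤ :=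
  PowerSeries.mk fun n => coeff n (∑ m ∈ range (n + 1), toTerm m)

end Run7.h185.To
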