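import Pool.Agent.Run7.h185.To.Defs

/-!
# Parity of the coefficients of `T_o(q)`
-/

set_option autoImplicit false

namespace Run7.h185.To

open Finset PowerSeries

abbrev K := PowerSeries (ZMod 2)

theorem two_zero : (2 : K) = 0 := by
  have h : (PowerSeries.C (R := ZMod 2)) 2 = (2 : K) := map_ofNat _ 2
  rw [← h, show (2 : ZMod 2) = 0 from rfl, map_zero]

theorem add_self' (a : K) : a + a = 0 := by
  linear_combination a * two_zero

/-- `(Q;Q)_n` with `Q = q^2`, modulo 2 -/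
noncomputable def P (n : ℕ) : K := ∏ i ∈ range n, (1 + (X : K) ^ (2 * (i + 1)))

theorem P_zero : P 0 = 1 := by simp [P]

theorem P_succ (n : ℕ) : P (n + 1) = P n * (1 + (X : K) ^ (2 * (n + 1))) := by
  simp [P, prod_range_succ]

theorem cc_one_add (k : ℕ) : constantCoeff (1 + (X : K) ^ (k + 1) : K) = 1 := by
  simp

theorem cc_P (n : ℕ) : constantCoeff (P n) = 1 := by
  induction n with
  | zero => simp [P_zero]
  | succ n ih =>
    rw [P_succ, map_mul, ih]
    have : 2 * (n + 1) = (2 * n + 1) + 1 := by ring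
    rw [this, cc_one_add, one_mul]

noncomputable def u (n : ℕ) : K := (P n)⁻¹

noncomputable def v (n : ℕ) : K := (1 + (X : K) ^ (2 * n + 1))⁻¹

theorem P_u (n : ℕ) : P n * u n = 1 :=
  PowerSeries.mul_inv_cancel _ (by rw [cc_P]; exact one_ne_zero)

theorem v_mul (n : ℕ) : (1 + (X : K) ^ (2 * n + 1)) * v n = 1 :=
  PowerSeries.mul_inv_cancel _ (by rw [cc_one_add]; exact one_ne_zero)

theorem u_succ (n : ℕ) : (1 + (X : K) ^ (2 * (n + 1))) * u (n + 1) = u n := by
  have h1 := P_u n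
  have h2 := P_u (n + 1)
  rw [P_succ] at h2
  -- multiply by u n * P n
  calc (1 + (X : K) ^ (2 * (n + 1))) * u (n + 1)
      = (1 + (X : K) ^ (2 * (n + 1))) * u (n + 1) * (P n * u n) := by rw [h1, mul_one]
    _ = (P n * (1 + (X : K) ^ (2 * (n + 1))) * u (n + 1)) * u n := by ring
    _ = u n := by rw [h2, one_mul]

/-- triangular numbers -/
def t (n : ℕ) : ℕ := n * (n + 1) / 2

theorem t_zero : t 0 = 0 := rfl

theorem t_succ (n : ℕ) : t (n + 1) = t n + (n + 1) := by
  unfold t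
  have h : (n + 1) * (n + 1 + 1) = n * (n + 1) + (n + 1) * 2 := by ring
  rw [h, Nat.add_mul_div_right _ _ (by norm_num)]

theorem two_t (n : ℕ) : 2 * t n = n * (n + 1) := by
  induction n with
  | zero => rfl
  | succ n ih => rw [t_succ]; linarith

/-! ### The sum `K(n, m)` -/

/-- `b r = r (r-1) / 2` -/
def b : ℕ → ℕ
  | 0 => 0
  | (n + 1) => t n

theorem b_succ (n : ℕ) : b (n + 1) = b n + n := by
  cases n with
  | zero => rfl
  | succ n => show t (n + 1) = t n + (n + 1); exact t_succ n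

theorem t_eq (n : ℕ) : t n = b n + n := by
  have := b_succ n
  exact this

noncomputable def S (n m : ℕ) : K :=
  ∑ p ∈ antidiagonal n, (X : K) ^ (2 * b p.2) * P (m + p.1) * u p.1 * u p.2

theorem S_rec (n m : ℕ) :
    (1 + (X : K) ^ (2 * (n + 1))) * S (n + 1) m = S n (m + 1) + (X : K) ^ (2 * n) * S n m := by
  have h : (1 + (X : K) ^ (2 * (n + 1))) * S (n + 1) m =
      (∑ p ∈ antidiagonal (n + 1), (1 + (X : K) ^ (2 * p.1)) *
        ((X : K) ^ (2 * b p.2) * P (m + p.1) * u p.1 * u p.2)) +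
      ∑ p ∈ antidiagonal (n + 1), (X : K) ^ (2 * p.1) * (1 + (X : K) ^ (2 * p.2)) *
        ((X : K) ^ (2 * b p.2) * P (m + p.1) * u p.1 * u p.2) := by
    rw [← sum_add_distrib, S, mul_sum]
    refine sum_congr rfl fun p hp => ?_
    have hp' : p.1 + p.2 = n + 1 := mem_antidiagonal.1 hp
    have h3 : (X : K) ^ (2 * (n + 1)) = (X : K) ^ (2 * p.1) * (X : K) ^ (2 * p.2) := by
      rw [← hp', ← pow_add]; congr 1; ring
    rw [h3]
    linear_combination (- (X : K) ^ (2 * p.1)) * ((X : K) ^ (2 * b p.2) * P (m + p.1) * u p.1 * u p.2) * two_zero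
  rw [h]
  congr 1
  · rw [Finset.Nat.antidiagonal_succ, sum_cons]
    simp only [mul_zero, pow_zero]
    have h0 : (1 + 1 : K) = 0 := add_self' 1
    rw [h0, zero_mul, zero_add, sum_map, S]
    refine sum_congr rfl fun p _ => ?_
    simp only [Function.Embedding.prodMap, Function.Embedding.coeFn_mk, Prod.map,
      Function.Embedding.refl_apply, Nat.succ_eq_add_one]
    have := u_succ p.1
    have e : m + (p.1 + 1) = m + 1 + p.1 := by ring
    rw [e]
    linear_combination ((X : K) ^ (2 * b p.2) * P (m + 1 + p.1) * u p.2) * this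
  · rw [Finset.Nat.antidiagonal_succ', sum_cons]
    simp only [mul_zero, pow_zero]
    have h0 : (1 + 1 : K) = 0 := add_self' 1
    rw [h0, mul_zero, zero_mul, zero_add, sum_map, S, mul_sum]
    refine sum_congr rfl fun p hp => ?_
    simp only [Function.Embedding.prodMap, Function.Embedding.coeFn_mk, Prod.map,
      Function.Embedding.refl_apply, Nat.succ_eq_add_one]
    have hp' : p.1 + p.2 = n := mem_antidiagonal.1 hp
    have := u_succ p.2
    have e : (X : K) ^ (2 * n) = (X : K) ^ (2 * p.1) * (X : K) ^ (2 * p.2) := by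
      rw [← hp', ← pow_add]; congr 1; ring
    have e2 : (X : K) ^ (2 * b (p.2 + 1)) = (X : K) ^ (2 * b p.2) * (X : K) ^ (2 * p.2) := by
      rw [← pow_add, b_succ]; congr 1; ring
    rw [e, e2]
    linear_combination ((X : K) ^ (2 * p.1) * (X : K) ^ (2 * b p.2) * (X : K) ^ (2 * p.2) * P (m + p.1) * u p.1) * this

theorem fac_ne (k : ℕ) : (1 + (X : K) ^ (k + 1) : K) ≠ 0 := by
  intro h
  have := cc_one_add k
  rw [h] at this
  simp at this

theorem S_eq (n : ℕ) : ∀ m, S n m = P m * u n * (X : K) ^ (2 * (b n + (m + 1) * n)) := by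
  induction n with
  | zero =>
    intro m
    have hu : u 0 = 1 := by have := P_u 0; rwa [P_zero, one_mul] at this
    simp [S, b, hu]
  | succ n ih =>
    intro m
    have h1 := S_rec n m
    rw [ih, ih] at h1
    have h2 := u_succ n
    have hne : (1 + (X : K) ^ (2 * (n + 1)) : K) ≠ 0 := by
      have : 2 * (n + 1) = (2 * n + 1) + 1 := by ring
      rw [this]; exact fac_ne _
    apply mul_left_cancel₀ hne
    rw [h1, P_succ, b_succ]
    have e1 : (X : K) ^ (2 * (b n + (m + 1 + 1) * n)) =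
        (X : K) ^ (2 * b n) * (X : K) ^ (2 * ((m + 2) * n)) := by rw [← pow_add]; congr 1; ring
    have e2 : (X : K) ^ (2 * n) * (P m * u n * (X : K) ^ (2 * (b n + (m + 1) * n))) =
        P m * u n * ((X : K) ^ (2 * b n) * (X : K) ^ (2 * ((m + 2) * n))) := by
      have : (X : K) ^ (2 * n) * (X : K) ^ (2 * (b n + (m + 1) * n)) =
          (X : K) ^ (2 * b n) * (X : K) ^ (2 * ((m + 2) * n)) := by
        rw [← pow_add, ← pow_add]; congr 1; ring
      linear_combination (P m * u n) * this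
    have e3 : (X : K) ^ (2 * (b n + n + (m + 1) * (n + 1))) =
        (X : K) ^ (2 * b n) * (X : K) ^ (2 * ((m + 2) * n)) * (X : K) ^ (2 * (m + 1)) := by
      rw [← pow_add, ← pow_add]; congr 1; ring
    rw [e1, e2, e3]
    linear_combination (P m * u n * ((X : K) ^ (2 * b n) * (X : K) ^ (2 * ((m + 2) * n)))) * two_zero -
      (P m * ((X : K) ^ (2 * b n) * (X : K) ^ (2 * ((m + 2) * n)) * (X : K) ^ (2 * (m + 1)))) * h2

/-! ### The Bailey pair -/

noncomputable def F (r j : ℕ) : K := (X : K) ^ (2 * b r) * P (r + 2 * j + 1) * u r * u j * v j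

noncomputable def J (n : ℕ) : K := ∑ p ∈ antidiagonal n, F p.2 p.1

theorem F_zero (j : ℕ) : F 0 j = (1 + (X : K) ^ (2 * j + 1)) * (P (2 * j) * u j) := by
  have h := v_mul j
  unfold F
  have e : 0 + 2 * j + 1 = 2 * j + 1 := by ring
  have e1 : (X : K) ^ (2 * (2 * j + 1)) = (X : K) ^ (2 * j + 1) * (X : K) ^ (2 * j + 1) := by
    rw [← pow_add]; congr 1; ring
  have hu : u 0 = 1 := by have := P_u 0; rwa [P_zero, one_mul] at this
  rw [e, P_succ, hu, e1]
  simp only [b, mul_zero, pow_zero, one_mul, mul_one]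
  linear_combination (P (2 * j) * u j * (1 + (X : K) ^ (2 * j + 1))) * h -
    (P (2 * j) * u j * v j * (X : K) ^ (2 * j + 1)) * two_zero

theorem F_rec (r j : ℕ) :
    F (r + 1) j + (X : K) ^ (2 * (r + j) + 1) * F r j =
      (1 + (X : K) ^ (2 * (r + 1 + j) + 1)) * ((X : K) ^ (2 * b (r + 1)) * P (r + 1 + 2 * j) * u j * u (r + 1)) := by
  have h := v_mul j
  have hu := u_succ r
  unfold F
  have e : r + 1 + 2 * j = r + 2 * j + 1 := by ring
  rw [e, P_succ (r + 2 * j + 1), b_succ, ← hu]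
  have e1 : (X : K) ^ (2 * (b r + r)) = (X : K) ^ (2 * b r) * (X : K) ^ (2 * r) := by
    rw [← pow_add]; congr 1; ring
  have e2 : (X : K) ^ (2 * (r + 2 * j + 1 + 1)) = (X : K) ^ (2 * r) * (X : K) ^ (4 * j) * (X : K) ^ 4 := by
    rw [← pow_add, ← pow_add]; congr 1; ring
  have e3 : (X : K) ^ (2 * (r + j) + 1) = (X : K) ^ (2 * r) * (X : K) ^ (2 * j + 1) := by
    rw [← pow_add]; congr 1; ring
  have e4 : (X : K) ^ (2 * (r + 1)) = (X : K) ^ (2 * r) * (X : K) ^ 2 := by
    rw [← pow_add]; congr 1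
  have e5 : (X : K) ^ (2 * (r + 1 + j) + 1) = (X : K) ^ (2 * r) * (X : K) ^ (2 * j + 1) * (X : K) ^ 2 := by
    rw [← pow_add, ← pow_add]; congr 1; ring
  have e6 : (X : K) ^ (4 * j) * (X : K) ^ 4 = (X : K) ^ (2 * j + 1) * (X : K) ^ (2 * j + 1) * (X : K) ^ 2 := by
    rw [← pow_add, ← pow_add, ← pow_add]; congr 1; ring
  rw [e1, e2, e3, e4, e5]
  linear_combination
    ((X : K) ^ (2 * b r) * (X : K) ^ (2 * r) * P (r + 2 * j + 1) * u (r + 1) * u j *
      (1 + (X : K) ^ (2 * r) * (X : K) ^ (2 * j + 1) * (X : K) ^ 2)) * h +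
    ((X : K) ^ (2 * b r) * (X : K) ^ (2 * r) * P (r + 2 * j + 1) * u (r + 1) * u j * v j * (X : K) ^ (2 * r)) * e6

/-- the recurrence of `J` -/
theorem J_rec (n : ℕ) :
    J (n + 1) + (X : K) ^ (2 * n + 1) * J n = (X : K) ^ ((n + 1) * (3 * n + 4)) * (1 + (X : K) ^ (2 * n + 3)) := by
  have h1 : J (n + 1) + (X : K) ^ (2 * n + 1) * J n = (1 + (X : K) ^ (2 * (n + 1) + 1)) * S (n + 1) (n + 1) := by
    rw [J, J, S, Finset.Nat.antidiagonal_succ', sum_cons, sum_cons, sum_map, sum_map, mul_add,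
      mul_sum, mul_sum]
    simp only [Function.Embedding.prodMap, Function.Embedding.coeFn_mk, Prod.map,
      Function.Embedding.refl_apply, Nat.succ_eq_add_one]
    rw [F_zero, add_assoc, ← sum_add_distrib]
    congr 1
    · have hu : u 0 = 1 := by have := P_u 0; rwa [P_zero, one_mul] at this
      have e : n + 1 + (n + 1) = 2 * (n + 1) := by ring
      rw [e, hu]
      simp [b]
    · refine sum_congr rfl fun p hp => ?_
      have hp' : p.1 + p.2 = n := mem_antidiagonal.1 hp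
      have := F_rec p.2 p.1
      have e1 : 2 * (p.2 + p.1) + 1 = 2 * n + 1 := by rw [← hp']; ring
      have e2 : 2 * (p.2 + 1 + p.1) + 1 = 2 * (n + 1) + 1 := by rw [← hp']; ring
      have e3 : p.2 + 1 + 2 * p.1 = n + 1 + p.1 := by rw [← hp']; ring
      rw [e1, e2, e3] at this
      rw [this]
  rw [h1, S_eq]
  have h2 := P_u (n + 1)
  have e : 2 * (b (n + 1) + (n + 1 + 1) * (n + 1)) = (n + 1) * (3 * n + 4) := by
    have h3 : 2 * b (n + 1) = n * (n + 1) := two_t n
    rw [mul_add, h3]; ring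
  have e2 : 2 * (n + 1) + 1 = 2 * n + 3 := by ring
  rw [h2, e, e2]
  ring

/-- **The Bailey pair modulo 2.** -/
theorem J_eq (n : ℕ) : J n = (X : K) ^ (n ^ 2) * ∑ i ∈ range (2 * n + 2), (X : K) ^ t i := by
  induction n with
  | zero =>
    have hu : u 0 = 1 := by have := P_u 0; rwa [P_zero, one_mul] at this
    have h := F_zero 0
    have h2 : J 0 = F 0 0 := by simp [J]
    rw [h2, h, hu, P_zero]
    simp [sum_range_succ, t]
  | succ n ih =>
    have h := J_rec n
    rw [ih] at h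
    have e : 2 * (n + 1) + 2 = 2 * n + 2 + 1 + 1 := by ring
    rw [e, sum_range_succ, sum_range_succ]
    set s := ∑ i ∈ range (2 * n + 2), (X : K) ^ t i with hs
    have e1 : (X : K) ^ (2 * n + 1) * ((X : K) ^ (n ^ 2) * s) = (X : K) ^ ((n + 1) ^ 2) * s := by
      have : (X : K) ^ (2 * n + 1) * (X : K) ^ (n ^ 2) = (X : K) ^ ((n + 1) ^ 2) := by
        rw [← pow_add]; congr 1; ring
      rw [← mul_assoc, this]
    have e2 : (X : K) ^ ((n + 1) * (3 * n + 4)) = (X : K) ^ ((n + 1) ^ 2) * (X : K) ^ t (2 * n + 2) := by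
      rw [← pow_add]; congr 1
      have h5 := two_t (2 * n + 2)
      nlinarith
    have e3 : (X : K) ^ t (2 * n + 2 + 1) = (X : K) ^ t (2 * n + 2) * (X : K) ^ (2 * n + 3) := by
      rw [← pow_add, t_succ]
    rw [e1, e2] at h
    rw [e3]
    linear_combination h - ((X : K) ^ ((n + 1) ^ 2) * s) * two_zero

/-! ### The summation -/

noncomputable def tm (M r : ℕ) : K := (X : K) ^ (2 * t r) * P (M + r) * u r

noncomputable def V (R M : ℕ) : K := ∑ r ∈ range R, tm M r

theorem V_step (M : ℕ) : ∀ R, V R (M + 2) = (1 + (X : K) ^ (2 * (M + 1))) * V R M +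
    (X : K) ^ (2 * (M + 1)) * (1 + (X : K) ^ (2 * R)) * tm M R := by
  intro R
  induction R with
  | zero =>
    have h0 : (1 + 1 : K) = 0 := add_self' 1
    simp [V, h0]
  | succ R ih =>
    have h1 : V (R + 1) (M + 2) = V R (M + 2) + tm (M + 2) R := by simp [V, sum_range_succ]
    have h2 : V (R + 1) M = V R M + tm M R := by simp [V, sum_range_succ]
    rw [h1, h2, ih]
    have hu := u_succ R
    unfold tm
    have e1 : M + 2 + R = M + R + 1 + 1 := by ring
    have e2 : M + (R + 1) = M + R + 1 := by ring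
    have e3 : (X : K) ^ (2 * t (R + 1)) = (X : K) ^ (2 * t R) * (X : K) ^ (2 * (R + 1)) := by
      rw [← pow_add, t_succ]; congr 1; ring
    rw [e1, e2, P_succ (M + R + 1), P_succ (M + R), e3, ← hu]
    have e4 : (X : K) ^ (2 * (M + R + 1)) = (X : K) ^ (2 * (M + 1)) * (X : K) ^ (2 * R) := by
      rw [← pow_add]; congr 1; ring
    have e5 : (X : K) ^ (2 * (M + R + 1 + 1)) = (X : K) ^ (2 * (M + 1)) * (X : K) ^ (2 * R) * (X : K) ^ 2 := by
      rw [← pow_add, ← pow_add]; congr 1; ring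
    have e6 : (X : K) ^ (2 * (R + 1)) = (X : K) ^ (2 * R) * (X : K) ^ 2 := by
      rw [← pow_add]; congr 1
    rw [e4, e5, e6]
    linear_combination ((X : K) ^ (2 * t R) * P (M + R) * (1 + (X : K) ^ (2 * R) * (X : K) ^ 2) * u (R + 1) *
      (X : K) ^ (2 * (M + 1)) * (X : K) ^ (2 * R)) * two_zero

theorem V_one (R : ℕ) : V R 1 = 1 + (X : K) ^ (2 * t R) := by
  induction R with
  | zero =>
    have h0 : (1 + 1 : K) = 0 := add_self' 1
    simp [V, t, h0]
  | succ R ih =>
    have h1 : V (R + 1) 1 = V R 1 + tm 1 R := by simp [V, sum_range_succ]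
    have h2 : tm 1 R = (X : K) ^ (2 * t R) + (X : K) ^ (2 * t (R + 1)) := by
      have h3 := P_u R
      have e3 : (X : K) ^ (2 * t (R + 1)) = (X : K) ^ (2 * t R) * (X : K) ^ (2 * (R + 1)) := by
        rw [← pow_add, t_succ]; congr 1; ring
      unfold tm
      rw [add_comm 1 R, P_succ, e3]
      linear_combination ((X : K) ^ (2 * t R) * (1 + (X : K) ^ (2 * (R + 1)))) * h3
    rw [h1, ih, h2]
    linear_combination ((X : K) ^ (2 * t R)) * two_zero

theorem V_odd (R : ℕ) : ∀ j, ∃ c, V R (2 * j + 1) = P j ^ 2 + (X : K) ^ (2 * t R) * c := by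
  intro j
  induction j with
  | zero => exact ⟨1, by rw [V_one, P_zero]; ring⟩
  | succ j ih =>
    obtain ⟨c, hc⟩ := ih
    have h := V_step (2 * j + 1) R
    have e : 2 * (j + 1) + 1 = 2 * j + 1 + 2 := by ring
    refine ⟨(1 + (X : K) ^ (2 * (2 * j + 1 + 1))) * c +
      (X : K) ^ (2 * (2 * j + 1 + 1)) * (1 + (X : K) ^ (2 * R)) * (P (2 * j + 1 + R) * u R), ?_⟩
    rw [e, h, hc, P_succ]
    have e1 : (X : K) ^ (2 * (2 * j + 1 + 1)) = (X : K) ^ (2 * (j + 1)) * (X : K) ^ (2 * (j + 1)) := by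
      rw [← pow_add]; congr 1; ring
    unfold tm
    rw [e1]
    linear_combination (- P j ^ 2 * (X : K) ^ (2 * (j + 1))) * two_zero

theorem le_t (n : ℕ) : n ≤ t n := by rw [t_eq]; exact Nat.le_add_left _ _

/-- The two sums agree modulo `q ^ (2 * N)`. -/
theorem sum_eq (N : ℕ) : ∃ c : K, ∑ n ∈ range N, (X : K) ^ (2 * n) * J n =
    ∑ j ∈ range N, (X : K) ^ (2 * j) * P j * v j + (X : K) ^ (2 * N) * c := by
  have h1 : ∑ n ∈ range N, (X : K) ^ (2 * n) * J n =
      ∑ j ∈ range N, (X : K) ^ (2 * j) * u j * v j * V (N - j) (2 * j + 1) := by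
    have h2 : ∀ n, (X : K) ^ (2 * n) * J n =
        ∑ k ∈ range (n + 1), (fun j r => (X : K) ^ (2 * (j + r)) * F r j) k (n - k) := by
      intro n
      rw [J, mul_sum, ← Finset.Nat.sum_antidiagonal_eq_sum_range_succ
        (fun j r => (X : K) ^ (2 * (j + r)) * F r j)]
      refine sum_congr rfl fun p hp => ?_
      rw [mem_antidiagonal.1 hp]
    rw [sum_congr rfl fun n _ => h2 n]
    refine (Finset.sum_range_diag_flip N (fun j r => (X : K) ^ (2 * (j + r)) * F r j)).trans ?_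
    refine sum_congr rfl fun j _ => ?_
    rw [V, mul_sum]
    refine sum_congr rfl fun r _ => ?_
    unfold F tm
    have e : (X : K) ^ (2 * (j + r)) * (X : K) ^ (2 * b r) = (X : K) ^ (2 * j) * (X : K) ^ (2 * t r) := by
      rw [← pow_add, ← pow_add, t_eq]; congr 1; ring
    have e1 : r + 2 * j + 1 = 2 * j + 1 + r := by ring
    rw [e1]
    linear_combination (P (2 * j + 1 + r) * u r * u j * v j) * e
  choose c hc using V_odd
  refine ⟨∑ j ∈ range N, (X : K) ^ (2 * (j + t (N - j) - N)) * u j * v j * c (N - j) j, ?_⟩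
  rw [h1, mul_sum, ← sum_add_distrib]
  refine sum_congr rfl fun j hj => ?_
  have hj' : j < N := mem_range.1 hj
  rw [hc]
  have h3 := le_t (N - j)
  have e : (X : K) ^ (2 * N) * (X : K) ^ (2 * (j + t (N - j) - N)) = (X : K) ^ (2 * j) * (X : K) ^ (2 * t (N - j)) := by
    rw [← pow_add, ← pow_add]; congr 1; omega
  have h4 := P_u j
  linear_combination ((X : K) ^ (2 * j) * v j * P j) * h4 - (u j * v j * c (N - j) j) * e

/-! ### Reduction modulo 2 -/

noncomputable def f : PowerSeries ℤ →+* K := PowerSeries.map (Int.castRingHom (ZMod 2))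

theorem f_X : f X = (X : K) := by simp [f]

noncomputable def E (m : ℕ) : K := ∏ i ∈ range m, (1 + (X : K) ^ (2 * i + 1))

theorem E_succ (m : ℕ) : E (m + 1) = E m * (1 + (X : K) ^ (2 * m + 1)) := by
  simp [E, prod_range_succ]

theorem neg_eq (a : K) : -a = a := by linear_combination (-a) * two_zero

theorem f_term (m : ℕ) : f (toTerm m) = (X : K) ^ (2 * m) * P m * v m := by
  have h1 : (∏ i ∈ range (m + 1), (1 - X ^ (2 * i + 1)) : PowerSeries ℤ) *
      PowerSeries.invOfUnit (∏ i ∈ range (m + 1), (1 - X ^ (2 * i + 1))) 1 = 1 := by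
    refine PowerSeries.mul_invOfUnit _ _ ?_
    rw [map_prod]
    simp
  have h2 : f (∏ i ∈ range (m + 1), (1 - X ^ (2 * i + 1))) = E (m + 1) := by
    rw [map_prod, E]
    refine prod_congr rfl fun i _ => ?_
    rw [map_sub, map_one, map_pow, f_X, sub_eq_add_neg, neg_eq]
  have h3 : f (∏ i ∈ range (2 * m), (1 + X ^ (i + 1))) = E m * P m := by
    rw [map_prod]
    clear h1 h2
    induction m with
    | zero => simp [E, P_zero]
    | succ m ih =>
      have e : 2 * (m + 1) = 2 * m + 1 + 1 := by ring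
      rw [e, prod_range_succ, prod_range_succ, ih, E_succ, P_succ]
      simp only [map_add, map_one, map_pow, f_X]
      have e2 : 2 * (m + 1) = 2 * m + 1 + 1 := by ring
      rw [e2]
      ring
  have h4 := congrArg f h1
  rw [map_mul, map_one, h2, E_succ] at h4
  unfold toTerm
  rw [map_mul, map_mul, map_pow, f_X, h3]
  set w := f (PowerSeries.invOfUnit (∏ i ∈ range (m + 1), (1 - X ^ (2 * i + 1))) 1) with hw
  have h5 := v_mul m
  have h6 : E m * w = v m := by
    apply mul_left_cancel₀ (fac_ne (2 * m))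
    rw [h5]
    linear_combination h4
  linear_combination ((X : K) ^ (2 * m) * P m) * h6

theorem coeff_To (n : ℕ) : ((coeff n Tser : ℤ) : ZMod 2) =
    ∑ k ∈ range (n + 1), ∑ i ∈ range (2 * k + 2),
      if 2 * k + k ^ 2 + t i = n then (1 : ZMod 2) else 0 := by
  have h1 : coeff n Tser = coeff n (∑ m ∈ range (n + 1), toTerm m) := by simp [Tser]
  have h2 : ((coeff n Tser : ℤ) : ZMod 2) = coeff n (f (∑ m ∈ range (n + 1), toTerm m)) := by
    rw [h1, f, PowerSeries.coeff_map]; rfl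
  obtain ⟨c, hc⟩ := sum_eq (n + 1)
  have h3 : f (∑ m ∈ range (n + 1), toTerm m) =
      ∑ j ∈ range (n + 1), (X : K) ^ (2 * j) * P j * v j := by
    rw [map_sum]; exact sum_congr rfl fun m _ => f_term m
  have h4 : coeff n ((X : K) ^ (2 * (n + 1)) * c) = 0 := by
    rw [PowerSeries.coeff_X_pow_mul']
    rw [if_neg (by omega)]
  have h5 : coeff n (∑ j ∈ range (n + 1), (X : K) ^ (2 * j) * P j * v j) =
      coeff n (∑ k ∈ range (n + 1), (X : K) ^ (2 * k) * J k) := by
    rw [hc, map_add, h4, add_zero]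
  rw [h2, h3, h5, map_sum]
  refine sum_congr rfl fun k _ => ?_
  have h6 : (X : K) ^ (2 * k) * J k = ∑ i ∈ range (2 * k + 2), (X : K) ^ (2 * k + k ^ 2 + t i) := by
    rw [J_eq, ← mul_assoc, ← pow_add, mul_sum]
    exact sum_congr rfl fun i _ => by rw [← pow_add]
  rw [h6, map_sum]
  refine sum_congr rfl fun i _ => ?_
  rw [PowerSeries.coeff_X_pow]
  by_cases h : 2 * k + k ^ 2 + t i = n
  · rw [if_pos h, if_pos h.symm]
  · rw [if_neg h, if_neg (Ne.symm h)]

/-! ### Counting -/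

def Rp (n : ℕ) : Set (ℕ × ℕ) := {p | 0 < p.1 ∧ p.1 < 2 * p.2 ∧ p.1 ^ 2 + 2 * p.2 ^ 2 = 8 * n + 9}

def G (n : ℕ) : Finset ((_ : ℕ) × ℕ) :=
  ((range (n + 1)).sigma fun k => range (2 * k + 2)).filter fun p => 2 * p.1 + p.1 ^ 2 + t p.2 = n

theorem G_image (n : ℕ) :
    (((G n).image fun p : (_ : ℕ) × ℕ => (2 * p.2 + 1, 2 * (p.1 + 1))) : Set (ℕ × ℕ)) = Rp n := by
  ext ⟨x, y⟩
  simp only [coe_image, Set.mem_image, mem_coe, G, mem_filter, mem_sigma, mem_range, Rp,
    Set.mem_ofPred_eq, Prod.mk.injEq]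
  constructor
  · rintro ⟨⟨k, i⟩, ⟨⟨h1, h2⟩, h3⟩, rfl, rfl⟩
    simp only at h1 h2 h3 ⊢
    refine ⟨by omega, by omega, ?_⟩
    have := two_t i
    nlinarith
  · rintro ⟨h1, h2, h3⟩
    have hx : x % 2 = 1 := by
      rcases Nat.mod_two_eq_zero_or_one x with h | h
      · exfalso
        obtain ⟨a, rfl⟩ : ∃ a, x = 2 * a := ⟨x / 2, by omega⟩
        have : (2 * a) ^ 2 + 2 * y ^ 2 = 2 * (2 * a ^ 2 + y ^ 2) := by ring
        omega
      · exact h
    obtain ⟨i, rfl⟩ : ∃ i, x = 2 * i + 1 := ⟨x / 2, by omega⟩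
    have h4 := two_t i
    have h5 : (2 * i + 1) ^ 2 = 8 * t i + 1 := by nlinarith
    have hy : y % 2 = 0 := by
      rcases Nat.mod_two_eq_zero_or_one y with h | h
      · exact h
      · exfalso
        obtain ⟨a, rfl⟩ : ∃ a, y = 2 * a + 1 := ⟨y / 2, by omega⟩
        have h6 := two_t a
        have : 2 * (2 * a + 1) ^ 2 = 8 * (2 * t a) + 2 := by nlinarith
        omega
    obtain ⟨k, rfl⟩ : ∃ k, y = 2 * (k + 1) := ⟨y / 2 - 1, by omega⟩
    have h7 : 2 * (2 * (k + 1)) ^ 2 = 8 * (k ^ 2 + 2 * k + 1) := by ring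
    refine ⟨⟨k, i⟩, ⟨⟨?_, ?_⟩, ?_⟩, rfl, rfl⟩
    · simp only; nlinarith
    · simp only; omega
    · simp only; omega

theorem ncard_Rp (n : ℕ) : (Rp n).ncard = (G n).card := by
  rw [← G_image, Set.ncard_coe_finset, card_image_of_injOn]
  rintro ⟨k, i⟩ _ ⟨k', i'⟩ _ h
  simp only [Prod.mk.injEq] at h
  obtain ⟨h1, h2⟩ := h
  obtain rfl : k = k' := by omega
  obtain rfl : i = i' := by omega
  rfl

theorem parity (n : ℕ) : ((coeff n Tser : ℤ) : ZMod 2) = ((Rp n).ncard : ZMod 2) := by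
  rw [coeff_To, ncard_Rp, G, ← Finset.sum_boole, sum_sigma]

theorem order_term (m : ℕ) : ∃ c, toTerm m = X ^ (2 * m) * c := ⟨_, mul_assoc _ _ _⟩

theorem coeff_partial (n N : ℕ) (h : n < N) :
    coeff n Tser = coeff n (∑ m ∈ range N, toTerm m) := by
  have h1 : coeff n Tser = coeff n (∑ m ∈ range (n + 1), toTerm m) := by simp [Tser]
  rw [h1, map_sum, map_sum]
  refine sum_subset (range_subset_range.2 h) fun m _ hm => ?_
  have hm' : n < m := by
    rw [mem_range] at hm; omega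
  obtain ⟨c, hc⟩ := order_term m
  rw [hc, PowerSeries.coeff_X_pow_mul', if_neg (by omega)]

theorem main (n : ℕ) (h : ¬ ∃ x y : ℤ, 8 * (n : ℤ) + 9 = x ^ 2 + 2 * y ^ 2) :
    Even (coeff n Tser : ℤ) := by
  have h1 : (Rp n) = ∅ := by
    ext ⟨x, y⟩
    simp only [Rp, Set.mem_ofPred_eq, Set.mem_empty_iff_false, iff_false]
    rintro ⟨-, -, h3⟩
    exact h ⟨x, y, by exact_mod_cast h3.symm⟩
  have h2 := parity n
  rw [h1, Set.ncard_empty, Nat.cast_zero] at h2
  rw [even_iff_two_dvd]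
  have := (ZMod.intCast_zmod_eq_zero_iff_dvd (coeff n Tser : ℤ) 2).1 h2
  exact_mod_cast this

theorem Rp_finite (n : ℕ) : (Rp n).Finite := by
  rw [← G_image]; exact Finset.finite_toSet _

theorem parity' (n : ℕ) : (coeff n Tser : ℤ) ≡ ((Rp n).ncard : ℤ) [ZMOD 2] := by
  have h := parity n
  have h2 : ((coeff n Tser : ℤ) : ZMod 2) = (((Rp n).ncard : ℤ) : ZMod 2) := by
    rw [h]; norm_cast
  exact (ZMod.intCast_eq_intCast_iff _ _ 2).1 h2

end Run7.h185.To
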